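import Pool.Agent.R957.Mir.Final

/-!
# A mirrored pair of optimal entanglement witnesses not related by (local) unitaries

The definitions (`IsState`, `Separable`, `IsEW`, `IsOptimalEW`, `IsMirrored`) are in
`Pool.Agent.R957.Mir.Defs`.  `H5` is the Hermitian adjacency matrix of the five-cycle with all
edge weights `1` except `H_01 = (3 + 4i) / 5`; `BB H = ∑ H_ij |ii⟩⟨jj|`.
-/

open Matrix Pool.Agent.R957.Mir
open scoped Kronecker

namespace Pool.Agent.Results.MP_472e54_mp.NotLocallyEquivalent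

/-- On `ℂ⁵ ⊗ ℂ⁵` there is a mirrored pair `(W, M)` of optimal entanglement witnesses such that
`M ≠ U W U†` for every unitary `U` on `ℂ⁵ ⊗ ℂ⁵`, in particular for every local unitary
`U = U₁ ⊗ U₂`. -/
theorem result : ∃ W M : Matrix (Fin 5 × Fin 5) (Fin 5 × Fin 5) ℂ,
    IsOptimalEW W ∧ IsOptimalEW M ∧ IsMirrored W M ∧
    (∀ U ∈ unitaryGroup (Fin 5 × Fin 5) ℂ, M ≠ U * W * Uᴴ) ∧
    ∀ U₁ ∈ unitaryGroup (Fin 5) ℂ, ∀ U₂ ∈ unitaryGroup (Fin 5) ℂ,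
      M ≠ (U₁ ⊗ₖ U₂) * W * (U₁ ⊗ₖ U₂)ᴴ := by
  obtain ⟨h1, h2, h3⟩ := mirrored_pair (good_H5 (Or.inl rfl)) (good_H5 (Or.inr rfl))
  refine ⟨_, _, h1, h2, h3, fun U hU => not_unitary_equiv trace_BB_H5 U hU,
    fun U₁ h₁ U₂ h₂ => not_unitary_equiv trace_BB_H5 _ ?_⟩
  exact kronecker_mem_unitary h₁ h₂

end Pool.Agent.Results.MP_472e54_mp.NotLocallyEquivalent
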